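import Pool.Agent.H51.EI.TargetsC

/-! Board `exi_modules`, row MEAS: measure of `e ^ t`. -/

set_option autoImplicit false

namespace Pool.Agent.H33.EI.MEAS

open Pool.Agent.H51.EI Polynomial Finset

variable {O : Subring ℂ}

/-- the exponential bound -/
private theorem evsmall (y : ℝ) (D : ℕ) (hy : 0 ≤ y) : ∃ p1 : ℕ, ∀ p ≥ p1, 1 ≤ p →
    ((D : ℝ) + 1) * p * (y ^ p / ((p - 1).factorial : ℝ)) ≤ 1 / 2 := by
  have h1 := (FloorSemiring.tendsto_pow_div_factorial_atTop (4 * y)).eventually_lt_const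
    (show (0 : ℝ) < 1 / (2 * ((D : ℝ) + 1)) by positivity)
  obtain ⟨p1, hp1⟩ := Filter.eventually_atTop.1 h1
  refine ⟨p1, fun p hp hp0 => ?_⟩
  have h2 := (hp1 p hp).le
  have h3 : (p.factorial : ℝ) = p * ((p - 1).factorial : ℝ) := by
    exact_mod_cast (Nat.mul_factorial_pred (by omega)).symm
  have hp0' : (0 : ℝ) < p := by exact_mod_cast hp0
  have hf0 : (0 : ℝ) < ((p - 1).factorial : ℝ) := by exact_mod_cast Nat.factorial_pos _
  have h4 : (p : ℝ) ^ 2 ≤ 4 ^ p := by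
    have h5 : (p : ℝ) ≤ 2 ^ p := by exact_mod_cast (Nat.lt_two_pow_self (n := p)).le
    calc (p : ℝ) ^ 2 ≤ (2 ^ p) ^ 2 := by gcongr
      _ = 4 ^ p := by
          rw [← pow_mul, mul_comm p 2, pow_mul]
          norm_num
  have h5 : (p : ℝ) * (y ^ p / ((p - 1).factorial : ℝ)) ≤ (4 * y) ^ p / (p.factorial : ℝ) := by
    rw [h3, mul_div_assoc', div_le_div_iff₀ hf0 (by positivity), mul_pow]
    calc (p : ℝ) * y ^ p * (p * ((p - 1).factorial : ℝ))
        = (p : ℝ) ^ 2 * (y ^ p * ((p - 1).factorial : ℝ)) := by ring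
      _ ≤ 4 ^ p * (y ^ p * ((p - 1).factorial : ℝ)) := by gcongr
      _ = 4 ^ p * y ^ p * ((p - 1).factorial : ℝ) := by ring
  calc ((D : ℝ) + 1) * p * (y ^ p / ((p - 1).factorial : ℝ))
      = ((D : ℝ) + 1) * (p * (y ^ p / ((p - 1).factorial : ℝ))) := by ring
    _ ≤ ((D : ℝ) + 1) * (1 / (2 * ((D : ℝ) + 1))) :=
        mul_le_mul_of_nonneg_left (h5.trans h2) (by positivity)
    _ = 1 / 2 := by
        field_simp

private theorem ev_mul (P Q : (↥O)[X]) (x : ℂ) : ev (P * Q) x = ev P x * ev Q x := by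
  simp [ev, toC]

private theorem ev_X_pow (k : ℕ) (x : ℂ) : ev ((X : (↥O)[X]) ^ k) x = x ^ k := by
  simp [ev, toC]

private theorem ev_sum (P : (↥O)[X]) (D : ℕ) (h : P.natDegree ≤ D) (x : ℂ) :
    ev P x = ∑ l ∈ range (D + 1), (P.coeff l : ℂ) * x ^ l := by
  unfold ev
  rw [Polynomial.eval_eq_sum_range' (n := D + 1)]
  · refine Finset.sum_congr rfl fun l _ => ?_
    simp [toC]
  · have : (toC P).natDegree ≤ P.natDegree := Polynomial.natDegree_map_le
    omega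

/-- for polynomials with nonzero constant term -/
private theorem core (hHAR : T_HAR) (hHAN : T_HAN) (a b : O) (D : ℕ) (hD : Disc O) (hR : RP O)
    (ha : a ≠ 0) (hb : b ≠ 0) : ∃ c : ℝ, 0 ≤ c ∧ ∀ (P : (↥O)[X]) (H : ℝ), P.coeff 0 ≠ 0 →
    P.natDegree ≤ D → 1 ≤ H → (∀ i, ‖(P.coeff i : ℂ)‖ ≤ H) →
    Real.exp (-(c * H * Real.log (H + 1))) ≤ ‖ev P (Complex.exp ((a : ℂ) / (b : ℂ)))‖ := by
  obtain ⟨c, hc1, hc⟩ := hHAN O a b D ha hb
  have hc0 : 0 < c := by linarith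
  set z : O := b ^ (D + 1) * ∏ l ∈ Finset.Icc 1 D, (-((l : O) * a)) with hz
  have hz0 : z ≠ 0 := by
    refine mul_ne_zero (pow_ne_zero _ hb) ?_
    rw [Finset.prod_ne_zero_iff]
    intro l hl
    have hl1 := (Finset.mem_Icc.1 hl).1
    refine neg_ne_zero.2 (mul_ne_zero ?_ ha)
    intro h
    have h2 : ((l : O) : ℂ) = 0 := by rw [h]; simp
    have h3 : (l : ℂ) = 0 := by simpa using h2
    have h4 : l = 0 := by exact_mod_cast h3
    omega
  obtain ⟨n0, hn0⟩ := hR z hz0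
  have hb1 : 1 ≤ ‖(b : ℂ)‖ := hD b hb
  set y : ℝ := ‖(b : ℂ)‖ ^ (D + 1) * c with hy
  obtain ⟨p1, hp1⟩ := evsmall y D (by positivity)
  set n1 : ℕ := n0 + p1 with hn1
  set K : ℝ := 2 * ((n1 : ℝ) + 2) with hK
  have hK1 : 1 ≤ K := by
    rw [hK]
    have : (0 : ℝ) ≤ n1 := by positivity
    linarith
  have hlogb : 0 ≤ Real.log ‖(b : ℂ)‖ := Real.log_nonneg hb1
  have hlogK : 0 ≤ Real.log K := Real.log_nonneg hK1
  refine ⟨2 * Real.log 2 + (((D : ℝ) + 1) * Real.log ‖(b : ℂ)‖) * (2 * K) +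
    c * (K * (2 * Real.log K + 1)), by
      have : 0 ≤ Real.log 2 := Real.log_nonneg (by norm_num)
      positivity, ?_⟩
  intro P H hP0 hPD hH hPH
  set X0 : ℂ := Complex.exp ((a : ℂ) / (b : ℂ)) with hX0
  -- the prime
  obtain ⟨p, hp, hnp, hp2⟩ := Nat.exists_prime_lt_and_le_two_mul (⌊H⌋₊ + n1 + 1) (by omega)
  have hp1' : 1 ≤ p := hp.one_lt.le
  have hH0 : 0 ≤ H := by linarith
  have hpH : H < p := by
    have h1 : H < ⌊H⌋₊ + 1 := Nat.lt_floor_add_one H
    have h2 : ((⌊H⌋₊ : ℝ) + 1) ≤ p := by exact_mod_cast (by omega : ⌊H⌋₊ + 1 ≤ p)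
    linarith
  have hpK : (p : ℝ) ≤ K * H := by
    have h1 : (p : ℝ) ≤ 2 * ((⌊H⌋₊ : ℝ) + n1 + 1) := by exact_mod_cast hp2
    have h2 : (⌊H⌋₊ : ℝ) ≤ H := Nat.floor_le hH0
    have h3 : (0 : ℝ) ≤ n1 := by positivity
    rw [hK]
    nlinarith
  have hp0 : (0 : ℝ) < p := by linarith
  obtain ⟨G, hG1, hG2⟩ := hHAR O a b D p ha hb hp
  obtain ⟨hA1, hA2⟩ := hc p hp1'
  -- the integer
  set g : O := P.coeff 0 * G 0 + ∑ l ∈ Finset.Icc 1 D, P.coeff l * G l with hg
  set Nz : O := P.coeff 0 * z ^ p + (p : O) * g with hNz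
  have hNz0 : Nz ≠ 0 := by
    intro h0
    have h1 : (p : O) ∣ P.coeff 0 * z ^ p := by
      refine ⟨-g, ?_⟩
      rw [mul_neg]
      exact eq_neg_of_add_eq_zero_left h0
    obtain ⟨a', ha'⟩ := hn0 p hp (by omega) _ _ h1
    have ha'0 : a' ≠ 0 := by
      rintro rfl
      rw [mul_zero] at ha'
      exact hP0 ha'
    have h2 := hD a' ha'0
    have h3 := hPH 0
    have h4 : (P.coeff 0 : ℂ) = (p : ℂ) * (a' : ℂ) := by
      rw [ha']
      push_cast
      rfl
    rw [h4, norm_mul, Complex.norm_natCast] at h3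
    nlinarith
  have hNz1 : 1 ≤ ‖(Nz : ℂ)‖ := hD Nz hNz0
  set M : ℕ := (D + 1) * p with hM
  have hNzeq : (Nz : ℂ) = (b : ℂ) ^ M * ∑ l ∈ range (D + 1), (P.coeff l : ℂ) * hF a b D p l := by
    have h1 : range (D + 1) = insert 0 (Finset.Icc 1 D) := by
      ext l
      simp only [mem_range, mem_insert, mem_Icc]
      omega
    rw [h1, Finset.sum_insert (by simp), mul_add, Finset.mul_sum]
    have h2 : ∀ l ∈ Finset.Icc 1 D, (b : ℂ) ^ M * ((P.coeff l : ℂ) * hF a b D p l) =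
        (p : ℂ) * ((P.coeff l : ℂ) * (G l : ℂ)) := by
      intro l hl
      have h3 := hG1 l (Finset.mem_Icc.1 hl).1 (Finset.mem_Icc.1 hl).2
      calc (b : ℂ) ^ M * ((P.coeff l : ℂ) * hF a b D p l)
          = (P.coeff l : ℂ) * ((b : ℂ) ^ M * hF a b D p l) := by ring
        _ = (P.coeff l : ℂ) * ((p : ℂ) * (G l : ℂ)) := by rw [h3]
        _ = _ := by ring
    rw [Finset.sum_congr rfl h2, ← Finset.mul_sum]
    have h4 : (b : ℂ) ^ M * ((P.coeff 0 : ℂ) * hF a b D p 0) =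
        (P.coeff 0 : ℂ) * ((z : ℂ) ^ p + (p : ℂ) * (G 0 : ℂ)) := by
      calc (b : ℂ) ^ M * ((P.coeff 0 : ℂ) * hF a b D p 0)
          = (P.coeff 0 : ℂ) * ((b : ℂ) ^ M * hF a b D p 0) := by ring
        _ = _ := by
            rw [hG2, hz]
            push_cast
            rw [mul_pow, ← pow_mul, Finset.prod_pow]
    rw [h4, hNz, hg]
    push_cast
    ring
  -- comparison
  have hcmp : ∑ l ∈ range (D + 1), (P.coeff l : ℂ) * hF a b D p l =
      ev P X0 * hF a b D p 0 - ∑ l ∈ range (D + 1), (P.coeff l : ℂ) *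
        (Complex.exp ((l : ℂ) * ((a : ℂ) / (b : ℂ))) * hF a b D p 0 - hF a b D p l) := by
    rw [ev_sum P D hPD, Finset.sum_mul, ← Finset.sum_sub_distrib]
    refine Finset.sum_congr rfl fun l _ => ?_
    rw [hX0, ← Complex.exp_nat_mul]
    ring
  have hδ : ‖∑ l ∈ range (D + 1), (P.coeff l : ℂ) *
      (Complex.exp ((l : ℂ) * ((a : ℂ) / (b : ℂ))) * hF a b D p 0 - hF a b D p l)‖ ≤
      ((D : ℝ) + 1) * (p * (c ^ p / ((p - 1).factorial : ℝ))) := by
    refine (norm_sum_le _ _).trans ?_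
    have h1 : ∀ l ∈ range (D + 1), ‖(P.coeff l : ℂ) *
        (Complex.exp ((l : ℂ) * ((a : ℂ) / (b : ℂ))) * hF a b D p 0 - hF a b D p l)‖ ≤
        p * (c ^ p / ((p - 1).factorial : ℝ)) := by
      intro l hl
      rw [norm_mul]
      exact mul_le_mul ((hPH l).trans hpH.le) (hA1 l (by rw [mem_range] at hl; omega))
        (norm_nonneg _) hp0.le
    refine (Finset.sum_le_sum h1).trans (le_of_eq ?_)
    rw [Finset.sum_const, card_range, nsmul_eq_mul]
    push_cast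
    ring
  have hbM : ‖(b : ℂ)‖ ^ M * (((D : ℝ) + 1) * (p * (c ^ p / ((p - 1).factorial : ℝ)))) ≤
      1 / 2 := by
    have h1 := hp1 p (by omega) hp1'
    refine le_trans (le_of_eq ?_) h1
    rw [hy, mul_pow, hM, pow_mul]
    ring
  have hlow : 1 / 2 ≤ ‖(b : ℂ)‖ ^ M * (‖ev P X0‖ * ‖hF a b D p 0‖) := by
    rw [hNzeq, norm_mul, norm_pow, hcmp] at hNz1
    have h1 := norm_sub_le (ev P X0 * hF a b D p 0) (∑ l ∈ range (D + 1), (P.coeff l : ℂ) *
        (Complex.exp ((l : ℂ) * ((a : ℂ) / (b : ℂ))) * hF a b D p 0 - hF a b D p l))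
    rw [norm_mul] at h1
    have hbM0 : 0 ≤ ‖(b : ℂ)‖ ^ M := by positivity
    have h2 := mul_le_mul_of_nonneg_left (h1.trans (add_le_add_right hδ _)) hbM0
    rw [mul_add] at h2
    linarith
  have hup : ‖(b : ℂ)‖ ^ M * ‖hF a b D p 0‖ ≤
      Real.exp (((D : ℝ) + 1) * p * Real.log ‖(b : ℂ)‖ + c * p * Real.log (p + 1)) := by
    rw [Real.exp_add]
    refine mul_le_mul (le_of_eq ?_) hA2 (norm_nonneg _) (Real.exp_pos _).le
    rw [hM, ← Real.rpow_natCast, Real.rpow_def_of_pos (by linarith)]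
    congr 1
    push_cast
    ring
  -- logarithms
  have hL0 : 1 / 2 ≤ Real.log (H + 1) := by
    have h1 : Real.log 2 ≤ Real.log (H + 1) := Real.log_le_log (by norm_num) (by linarith)
    have := Real.log_two_gt_d9
    linarith
  have hlogp : Real.log (p + 1) ≤ Real.log K + Real.log (H + 1) := by
    rw [← Real.log_mul (by linarith) (by linarith)]
    refine Real.log_le_log (by linarith) ?_
    nlinarith
  have hfin : ((D : ℝ) + 1) * p * Real.log ‖(b : ℂ)‖ + c * p * Real.log (p + 1) + Real.log 2 ≤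
      (2 * Real.log 2 + (((D : ℝ) + 1) * Real.log ‖(b : ℂ)‖) * (2 * K) +
        c * (K * (2 * Real.log K + 1))) * H * Real.log (H + 1) := by
    set L : ℝ := Real.log (H + 1) with hL
    have hHL : 1 / 2 ≤ H * L := by nlinarith
    have k1 : ((D : ℝ) + 1) * p * Real.log ‖(b : ℂ)‖ ≤
        (((D : ℝ) + 1) * Real.log ‖(b : ℂ)‖) * (2 * K) * (H * L) := by
      have h1 : (p : ℝ) ≤ 2 * K * (H * L) := by
        have h2 : K * H ≤ 2 * K * (H * L) := by
          have : 0 ≤ K * H := by positivity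
          nlinarith
        linarith
      calc ((D : ℝ) + 1) * p * Real.log ‖(b : ℂ)‖
          = (((D : ℝ) + 1) * Real.log ‖(b : ℂ)‖) * p := by ring
        _ ≤ (((D : ℝ) + 1) * Real.log ‖(b : ℂ)‖) * (2 * K * (H * L)) := by gcongr
        _ = _ := by ring
    have k2 : c * p * Real.log (p + 1) ≤ c * (K * (2 * Real.log K + 1)) * (H * L) := by
      have h1 : Real.log (p + 1) ≤ (2 * Real.log K + 1) * L := by
        have : Real.log K ≤ 2 * Real.log K * L := by nlinarith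
        linarith
      have h2 : 0 ≤ (2 * Real.log K + 1) * L := by positivity
      calc c * p * Real.log (p + 1) ≤ c * p * ((2 * Real.log K + 1) * L) := by gcongr
        _ ≤ c * (K * H) * ((2 * Real.log K + 1) * L) := by gcongr
        _ = _ := by ring
    have k3 : Real.log 2 ≤ 2 * Real.log 2 * (H * L) := by
      have : 0 ≤ Real.log 2 := Real.log_nonneg (by norm_num)
      nlinarith
    linarith
  have hE := Real.exp_pos (((D : ℝ) + 1) * p * Real.log ‖(b : ℂ)‖ + c * p * Real.log (p + 1))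
  have h5 : 1 / 2 ≤ ‖ev P X0‖ *
      Real.exp (((D : ℝ) + 1) * p * Real.log ‖(b : ℂ)‖ + c * p * Real.log (p + 1)) := by
    refine hlow.trans ?_
    calc ‖(b : ℂ)‖ ^ M * (‖ev P X0‖ * ‖hF a b D p 0‖)
        = ‖ev P X0‖ * (‖(b : ℂ)‖ ^ M * ‖hF a b D p 0‖) := by ring
      _ ≤ _ := mul_le_mul_of_nonneg_left hup (norm_nonneg _)
  calc Real.exp (-((2 * Real.log 2 + (((D : ℝ) + 1) * Real.log ‖(b : ℂ)‖) * (2 * K) +
        c * (K * (2 * Real.log K + 1))) * H * Real.log (H + 1)))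
      ≤ Real.exp (-(((D : ℝ) + 1) * p * Real.log ‖(b : ℂ)‖ + c * p * Real.log (p + 1)) -
        Real.log 2) := by
        rw [Real.exp_le_exp]
        linarith
    _ = (1 / 2) * (Real.exp (((D : ℝ) + 1) * p * Real.log ‖(b : ℂ)‖ +
        c * p * Real.log (p + 1)))⁻¹ := by
        rw [Real.exp_sub, Real.exp_neg, Real.exp_log (by norm_num)]
        ring
    _ ≤ ‖ev P X0‖ := by
        rw [← div_eq_mul_inv, div_le_iff₀ hE]
        exact h5

theorem pf_MEAS (hHAR : T_HAR) (hHAN : T_HAN) : T_MEAS := by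
  intro O a b D hD hR ha hb
  obtain ⟨c, hc0, hc⟩ := core hHAR hHAN a b D hD hR ha hb
  set X0 : ℂ := Complex.exp ((a : ℂ) / (b : ℂ)) with hX0
  have hX00 : 0 < ‖X0‖ := norm_pos_iff.2 (Complex.exp_ne_zero _)
  set m : ℝ := min 1 ‖X0‖ with hm
  have hm0 : 0 < m := lt_min one_pos hX00
  have hm1 : m ≤ 1 := min_le_left _ _
  refine ⟨c + 2 * (D * (-Real.log m)), by
    have : 0 ≤ -Real.log m := by
      have := Real.log_nonpos hm0.le hm1
      linarith
    positivity, ?_⟩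
  intro P H hP hPD hH hPH
  set k := P.natTrailingDegree with hk
  obtain ⟨P1, hP1⟩ : X ^ k ∣ P := by
    rw [Polynomial.X_pow_dvd_iff]
    intro d hd
    exact Polynomial.coeff_eq_zero_of_lt_natTrailingDegree hd
  have hcoef : ∀ l, P1.coeff l = P.coeff (l + k) := by
    intro l
    rw [hP1, Polynomial.coeff_X_pow_mul]
  have hP10 : P1.coeff 0 ≠ 0 := by
    rw [hcoef, zero_add]
    exact fun h => hP (Polynomial.trailingCoeff_eq_zero.1 h)
  have hP1D : P1.natDegree ≤ D := by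
    rw [Polynomial.natDegree_le_iff_coeff_eq_zero]
    intro l hl
    rw [hcoef]
    exact Polynomial.coeff_eq_zero_of_natDegree_lt (by omega)
  have hkD : k ≤ D := (Polynomial.natTrailingDegree_le_natDegree P).trans hPD
  have h1 := hc P1 H hP10 hP1D hH (fun i => by rw [hcoef]; exact hPH _)
  have h2 : ev P X0 = X0 ^ k * ev P1 X0 := by
    conv_lhs => rw [hP1]
    rw [ev_mul, ev_X_pow]
  have h3 : m ^ D ≤ ‖X0 ^ k‖ := by
    rw [norm_pow]
    calc m ^ D ≤ m ^ k := pow_le_pow_of_le_one hm0.le hm1 hkD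
      _ ≤ ‖X0‖ ^ k := pow_le_pow_left₀ hm0.le (min_le_right _ _) _
  rw [h2, norm_mul]
  have h4 : m ^ D = Real.exp (-(D * (-Real.log m))) := by
    rw [← Real.rpow_natCast, Real.rpow_def_of_pos hm0]
    congr 1
    ring
  have hL0 : 1 / 2 ≤ Real.log (H + 1) := by
    have h1 : Real.log 2 ≤ Real.log (H + 1) := Real.log_le_log (by norm_num) (by linarith)
    have := Real.log_two_gt_d9
    linarith
  have hw : 0 ≤ (D : ℝ) * (-Real.log m) := by
    have := Real.log_nonpos hm0.le hm1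
    have h5 : 0 ≤ -Real.log m := by linarith
    positivity
  calc Real.exp (-((c + 2 * (D * (-Real.log m))) * H * Real.log (H + 1)))
      ≤ Real.exp (-(D * (-Real.log m)) + -(c * H * Real.log (H + 1))) := by
        rw [Real.exp_le_exp]
        have hHL : 1 / 2 ≤ H * Real.log (H + 1) := by nlinarith
        have : D * (-Real.log m) ≤ 2 * (D * (-Real.log m)) * (H * Real.log (H + 1)) := by
          nlinarith
        linarith
    _ = m ^ D * Real.exp (-(c * H * Real.log (H + 1))) := by rw [Real.exp_add, h4]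
    _ ≤ ‖X0 ^ k‖ * ‖ev P1 X0‖ := mul_le_mul h3 h1 (Real.exp_pos _).le (norm_nonneg _)

end Pool.Agent.H33.EI.MEAS
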